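import Pool.Agent.Work.MP_37bd4f_nt.Final

/-!
The Mertens type sum of the von Mangoldt function is controlled locally by the error of the
prime number theorem, up to a power saving term.
-/

set_option autoImplicit false

open Set

namespace Pool.Agent.Results.MP_37bd4f_nt.LocalMertens

/-- The Chebyshev function: `psi x` is the sum of `Λ n` over the positive integers `n ≤ x`. -/
noncomputable def psi (x : ℝ) : ℝ :=
  ∑ n ∈ Finset.Icc 1 ⌊x⌋₊, ArithmeticFunction.vonMangoldt n

/-- `psiTilde x` is the sum of `Λ n / n` over the positive integers `n ≤ x`. -/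
noncomputable def psiTilde (x : ℝ) : ℝ :=
  ∑ n ∈ Finset.Icc 1 ⌊x⌋₊, ArithmeticFunction.vonMangoldt n / (n : ℝ)

/-- The remainder `R x = psiTilde x - log x + γ`, where `γ` is the constant of Euler. -/
noncomputable def R (x : ℝ) : ℝ :=
  psiTilde x - Real.log x + Real.eulerMascheroniConstant

/-- The relative errors `|psi y - y| / y` for `x / A < y ≤ x * A`. -/
def relErrors (A x : ℝ) : Set ℝ :=
  (fun y : ℝ => |psi y - y| / y) '' Ioc (x / A) (x * A)

/-- `E A x` is the supremum of `|psi y - y| / y` over `x / A < y ≤ x * A`. -/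
noncomputable def E (A x : ℝ) : ℝ := sSup (relErrors A x)

lemma psi_eq (x : ℝ) :
    psi x = ∑ n ∈ Finset.Iic ⌊x⌋₊, ArithmeticFunction.vonMangoldt n := by
  unfold psi
  apply Finset.sum_subset
  · intro n hn
    rw [Finset.mem_Icc] at hn
    exact Finset.mem_Iic.2 hn.2
  · intro n hn hn'
    rw [Finset.mem_Iic] at hn
    rw [Finset.mem_Icc] at hn'
    have h0 : n = 0 := by omega
    rw [h0]
    simp

lemma psiTilde_eq (x : ℝ) :
    psiTilde x = ∑ n ∈ Finset.Iic ⌊x⌋₊, ArithmeticFunction.vonMangoldt n / (n : ℝ) := by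
  unfold psiTilde
  apply Finset.sum_subset
  · intro n hn
    rw [Finset.mem_Icc] at hn
    exact Finset.mem_Iic.2 hn.2
  · intro n hn hn'
    rw [Finset.mem_Iic] at hn
    rw [Finset.mem_Icc] at hn'
    have h0 : n = 0 := by omega
    rw [h0]
    simp

lemma psi_nonneg (x : ℝ) : 0 ≤ psi x :=
  Finset.sum_nonneg fun _ _ => ArithmeticFunction.vonMangoldt_nonneg

lemma psi_mono {x y : ℝ} (h : x ≤ y) : psi x ≤ psi y := by
  unfold psi
  apply Finset.sum_le_sum_of_subset_of_nonneg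
  · exact Finset.Icc_subset_Icc_right (Nat.floor_mono h)
  · intro i _ _
    exact ArithmeticFunction.vonMangoldt_nonneg

lemma psiTilde_nonneg (x : ℝ) : 0 ≤ psiTilde x :=
  Finset.sum_nonneg fun _ _ =>
    div_nonneg ArithmeticFunction.vonMangoldt_nonneg (Nat.cast_nonneg _)

lemma psiTilde_mono {x y : ℝ} (h : x ≤ y) : psiTilde x ≤ psiTilde y := by
  unfold psiTilde
  apply Finset.sum_le_sum_of_subset_of_nonneg
  · exact Finset.Icc_subset_Icc_right (Nat.floor_mono h)
  · intro i _ _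
    exact div_nonneg ArithmeticFunction.vonMangoldt_nonneg (Nat.cast_nonneg _)

/-- The relative errors in a window are bounded. -/
lemma bddAbove_relErrors {A x : ℝ} (hA : 1 < A) (hx : 2 ≤ x) : BddAbove (relErrors A x) := by
  have hA0 : 0 < A := by linarith
  have hxA : 0 < x / A := div_pos (by linarith) hA0
  refine ⟨psi (x * A) / (x / A) + 1, ?_⟩
  rintro _ ⟨y, ⟨hy1, hy2⟩, rfl⟩
  have hy0 : 0 < y := hxA.trans hy1
  have h1 : |psi y - y| ≤ psi y + y := by
    rw [abs_le]
    constructor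
    · linarith [psi_nonneg y]
    · linarith
  have h2 : psi y / y ≤ psi (x * A) / (x / A) :=
    div_le_div₀ (psi_nonneg _) (psi_mono hy2) hxA hy1.le
  calc |psi y - y| / y ≤ (psi y + y) / y := by gcongr
    _ = psi y / y + 1 := by field_simp
    _ ≤ psi (x * A) / (x / A) + 1 := by linarith

lemma relErrors_nonempty {A x : ℝ} (hA : 1 < A) (hx : 2 ≤ x) : (relErrors A x).Nonempty := by
  refine ⟨_, x, ⟨?_, ?_⟩, rfl⟩
  · rw [div_lt_iff₀ (by linarith)]
    nlinarith
  · nlinarith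

/-- `E A x` is the least upper bound of the relative errors. -/
lemma isLUB_E {A x : ℝ} (hA : 1 < A) (hx : 2 ≤ x) : IsLUB (relErrors A x) (E A x) :=
  isLUB_csSup (relErrors_nonempty hA hx) (bddAbove_relErrors hA hx)

lemma E_nonneg {A x : ℝ} (hA : 1 < A) (hx : 2 ≤ x) : 0 ≤ E A x := by
  obtain ⟨e, he⟩ := relErrors_nonempty hA hx
  have h1 : e ≤ E A x := (isLUB_E hA hx).1 he
  obtain ⟨y, ⟨hy1, _⟩, rfl⟩ := he
  have hy0 : 0 < y := (div_pos (by linarith) (by linarith : (0 : ℝ) < A)).trans hy1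
  exact (div_nonneg (abs_nonneg _) hy0.le).trans h1

/-- There is a constant `A > 1` such that `R x` is at most a constant times
`E A x + x ^ (-1/4)` for all `x ≥ 2`, where `E A x` is the (finite) supremum of
`|psi y - y| / y` over `x / A < y ≤ x * A`. -/
theorem result :
    ∃ A : ℝ, 1 < A ∧ (∀ x : ℝ, 2 ≤ x → IsLUB (relErrors A x) (E A x)) ∧
      ∃ C : ℝ, 0 < C ∧ ∀ x : ℝ, 2 ≤ x → |R x| ≤ C * (E A x + x ^ (-(1 / 4) : ℝ)) := by
  have hA : 1 < Real.exp 4 := Real.one_lt_exp_iff.2 (by norm_num)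
  refine ⟨Real.exp 4, hA, fun x hx => isLUB_E hA hx, ?_⟩
  obtain ⟨C, x0, hC⟩ := Pool.Agent.Work.MP_37bd4f_nt.final_bound
  set X : ℝ := max x0 2 with hX
  have hX2 : 2 ≤ X := le_max_right _ _
  have hX0 : 0 < X := by linarith
  set B : ℝ := psiTilde X + Real.log X + 1 with hB
  have hB0 : 0 < B := by
    have := psiTilde_nonneg X
    have := Real.log_nonneg (by linarith : (1 : ℝ) ≤ X)
    linarith
  have hXp : 0 < X ^ (1 / 4 : ℝ) := Real.rpow_pos_of_pos hX0 _
  refine ⟨max C 0 + B * X ^ (1 / 4 : ℝ), by positivity, fun x hx => ?_⟩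
  have hE := E_nonneg hA hx
  have hx0 : 0 < x := by linarith
  have hxp : 0 < x ^ (-(1 / 4) : ℝ) := Real.rpow_pos_of_pos hx0 _
  have hBX : 0 < B * X ^ (1 / 4 : ℝ) := mul_pos hB0 hXp
  rcases le_or_gt X x with hXx | hxX
  · have h1 := hC x ((le_max_left _ _).trans hXx) (E (Real.exp 4) x) (by
      intro y hy1 hy2
      have h2 := (isLUB_E hA hx).1 ⟨y, ⟨hy1, by rw [mul_comm]; exact hy2⟩, rfl⟩
      simp only [psi_eq] at h2
      exact h2)
    have h3 : |R x| ≤ C * (E (Real.exp 4) x + x ^ (-(1 / 4) : ℝ)) := by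
      unfold R
      rw [psiTilde_eq]
      exact h1
    refine h3.trans ?_
    apply mul_le_mul_of_nonneg_right _ (by positivity)
    linarith [le_max_left C 0]
  · have h1 : |R x| ≤ B := by
      have e1 : 0 ≤ Real.log x := Real.log_nonneg (by linarith)
      have e2 : Real.log x ≤ Real.log X := Real.log_le_log hx0 hxX.le
      have e3 := psiTilde_nonneg x
      have e4 : psiTilde x ≤ psiTilde X := psiTilde_mono hxX.le
      have e5 := Real.one_half_lt_eulerMascheroniConstant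
      have e6 := Real.eulerMascheroniConstant_lt_two_thirds
      unfold R
      rw [abs_le]
      constructor
      · linarith [psiTilde_nonneg X]
      · linarith [Real.log_nonneg (by linarith : (1 : ℝ) ≤ X)]
    have h2 : B ≤ B * X ^ (1 / 4 : ℝ) * x ^ (-(1 / 4) : ℝ) := by
      have h3 : X ^ (-(1 / 4) : ℝ) ≤ x ^ (-(1 / 4) : ℝ) :=
        Real.rpow_le_rpow_of_nonpos hx0 hxX.le (by norm_num)
      have h4 : X ^ (1 / 4 : ℝ) * X ^ (-(1 / 4) : ℝ) = 1 := by
        rw [← Real.rpow_add hX0]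
        norm_num
      calc B = B * (X ^ (1 / 4 : ℝ) * X ^ (-(1 / 4) : ℝ)) := by rw [h4, mul_one]
        _ = B * X ^ (1 / 4 : ℝ) * X ^ (-(1 / 4) : ℝ) := by ring
        _ ≤ B * X ^ (1 / 4 : ℝ) * x ^ (-(1 / 4) : ℝ) := by gcongr
    have h5 : 0 ≤ max C 0 := le_max_right _ _
    calc |R x| ≤ B := h1
      _ ≤ B * X ^ (1 / 4 : ℝ) * x ^ (-(1 / 4) : ℝ) := h2
      _ ≤ (max C 0 + B * X ^ (1 / 4 : ℝ)) * (E (Real.exp 4) x + x ^ (-(1 / 4) : ℝ)) := by
          have h6 : 0 ≤ max C 0 * (E (Real.exp 4) x + x ^ (-(1 / 4) : ℝ)) := by positivity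
          have h7 : 0 ≤ B * X ^ (1 / 4 : ℝ) * E (Real.exp 4) x := by positivity
          nlinarith [h6, h7]

end Pool.Agent.Results.MP_37bd4f_nt.LocalMertens
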